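import Pool.Agent.Helper6.HL.Core

/-!
# Project HL (MP_03bcbb_an): packet EM (the mean of the ridge form on light vectors)
-/

set_option autoImplicit false

noncomputable section

namespace Pool.Agent.Helper6.HL

open Pool.Agent.Helper25.HL

theorem em (h1 : S_SA1) (h2 : S_EBF) (h3 : S_RL) : S_EM := by
  classical
  intro p q N N₁ Z L σ Λ K h η ϖ m S S' hp hZ hΛ hP3 hϖ hK hh hh1 hm hS hSc hl hη hN hNL
  obtain ⟨e1, -, e3⟩ := h2 p q σ S Λ hΛ
  have hZ0 : (0 : ℝ) < Z := by exact_mod_cast hZ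
  have hE0 : EB σ S Λ (RV σ 0) = 0 := by
    have h := e3 0 (RV σ 0)
    rw [zero_smul] at h
    rw [map_zero, h, norm_zero]
    ring
  have key := h1 (Fin N) q N₁ Z ϖ (fun j => sup S' (m j)) η ((Z : ℝ) ^ 2) K (1 / Z)
    (fun j => EB σ S Λ (RV σ (res S'ᶜ (m j)))) (le_trans hp hN) hϖ hK
    (fun j => gi_card (hm j) _ fun t ht => (mem_sup.1 ht).2)
    (mass hϖ hm hη hl) (by positivity) (by positivity) hη
    (fun j => ⟨(e1 _).1, (e1 _).2.trans (rv_bound h3 σ hp (gi_res (hm j) _))⟩)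
    (fun J I hD => by
      have h4 := hP3 N₁ hN hNL S hSc (gam S' m J I) (gam_gi hm J I) (gam_van hS m J I)
        (gam_disj hD)
      have h5 : ∑ i, EB σ S Λ (RV σ (gam S' m J I i)) =
          ∑ i ∈ I, EB σ S Λ (RV σ (res S'ᶜ (m (J i)))) := by
        rw [← Finset.sum_subset (Finset.subset_univ I)]
        · refine Finset.sum_congr rfl fun i hi => ?_
          unfold gam
          rw [if_pos hi]
        · intro i _ hi
          unfold gam
          rw [if_neg hi]
          exact hE0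
      rw [h5] at h4
      refine h4.trans (le_of_eq ?_)
      ring)
  have h6 : ∑ j, ϖ j * EB σ S Λ (RV σ (res S'ᶜ ((h : ℂ) • m j))) ≤
      ∑ j, ϖ j * EB σ S Λ (RV σ (res S'ᶜ (m j))) := by
    refine Finset.sum_le_sum fun j _ => mul_le_mul_of_nonneg_left ?_ (hϖ j)
    rw [res_smul, map_smul, e3, Complex.norm_real, Real.norm_of_nonneg hh.le]
    have h7 := (e1 (RV σ (res S'ᶜ (m j)))).1
    exact mul_le_of_le_one_left h7 (pow_le_one₀ hh.le hh1)
  refine h6.trans (key.trans (le_of_eq ?_))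
  ring

end Pool.Agent.Helper6.HL
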