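import Pool.Agent.Helper25.HL.Goals2

/-!
# Project HL (MP_03bcbb_an): packet F4 (failure of P4 for fixed data)
-/

set_option autoImplicit false

noncomputable section

namespace Pool.Agent.Helper6.HL

export Pool.Agent.Helper25.HL (sq)

open Pool.Agent.Helper25.HL

/-- a vector of the Euclidean space -/
def ev {N : ℕ} (x : Fin N → ℂ) : EuclideanSpace ℂ (Fin N) := WithLp.toLp 2 x

theorem ev_norm {N : ℕ} (x : Fin N → ℂ) : ‖ev x‖ ^ 2 = ∑ i, ‖x i‖ ^ 2 := by
  rw [EuclideanSpace.norm_sq_eq]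
  rfl

theorem ev_inner {N : ℕ} (x y : Fin N → ℂ) :
    inner ℂ (ev x) (ev y) = ∑ i, (starRingEnd ℂ) (x i) * y i := by
  rw [PiLp.inner_apply]
  refine Finset.sum_congr rfl fun i _ => ?_
  rw [RCLike.inner_apply]
  exact mul_comm _ _

theorem coord_sum {N : ℕ} {ι : Type} [Fintype ι] (c : ι → ℂ) (u : ι → EuclideanSpace ℂ (Fin N))
    (i : Fin N) : (∑ j, c j • u j) i = ∑ j, c j * u j i := by
  have h := map_sum (EuclideanSpace.proj i : EuclideanSpace ℂ (Fin N) →L[ℂ] ℂ)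
    (fun j => c j • u j) Finset.univ
  exact h

/-- A finite family of vectors of the Euclidean space spans a space with a Bessel system of conjugates. -/
theorem proj {N : ℕ} {ι : Type} [Fintype ι] (v : ι → Fin N → ℂ) :
    ∃ (D : ℕ) (f : Fin D → Fin N → ℂ), D ≤ Fintype.card ι ∧
      (∀ g : Fin D → ℂ, ∑ i, ‖∑ k, g k * f k i‖ ^ 2 ≤ ∑ k, ‖g k‖ ^ 2) ∧
      ∀ (c : ι → ℂ) (x y : Fin N → ℂ), (∀ i, x i = ∑ j, c j * v j i) →
        ‖∑ i, (starRingEnd ℂ) (x i) * y i‖ ^ 2 ≤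
          (∑ i, ‖x i‖ ^ 2) * ∑ k, ‖∑ i, f k i * y i‖ ^ 2 := by
  let V := EuclideanSpace ℂ (Fin N)
  let F : Submodule ℂ V := Submodule.span ℂ (Set.range fun j => ev (v j))
  let φ := stdOrthonormalBasis ℂ F
  have hf : ∀ (k : Fin (Module.finrank ℂ F)) (y : Fin N → ℂ),
      inner ℂ ((φ k : F) : V) (ev y) = ∑ i, (starRingEnd ℂ) (((φ k : F) : V) i) * y i := by
    intro k y
    exact ev_inner (fun i => ((φ k : F) : V) i) y
  refine ⟨Module.finrank ℂ F, fun k i => (starRingEnd ℂ) (((φ k : F) : V) i), ?_, ?_, ?_⟩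
  · exact finrank_range_le_card _
  · intro g
    have h1 : ∀ i, ‖∑ k, g k * (starRingEnd ℂ) (((φ k : F) : V) i)‖ =
        ‖(((∑ k, (starRingEnd ℂ) (g k) • φ k : F)) : V) i‖ := by
      intro i
      have e : (((∑ k, (starRingEnd ℂ) (g k) • φ k : F)) : V) i =
          (starRingEnd ℂ) (∑ k, g k * (starRingEnd ℂ) (((φ k : F) : V) i)) := by
        rw [map_sum]
        simp only [map_mul, Complex.conj_conj]
        rw [Submodule.coe_sum]
        exact coord_sum _ _ i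
      rw [e, Complex.norm_conj]
    simp only [h1]
    have h2 := EuclideanSpace.norm_sq_eq (((∑ k, (starRingEnd ℂ) (g k) • φ k : F)) : V)
    rw [← h2, Submodule.norm_coe]
    have h3 := φ.sum_sq_norm_inner_right (∑ k, (starRingEnd ℂ) (g k) • φ k)
    rw [← h3]
    refine le_of_eq (Finset.sum_congr rfl fun k _ => ?_)
    rw [φ.orthonormal.inner_right_fintype, Complex.norm_conj]
  · intro c x y hx
    have hxF : ev x ∈ F := by
      have e : ev x = ∑ j, c j • ev (v j) := by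
        ext i
        have e2 : (∑ j, c j • ev (v j)) i = ∑ j, c j * v j i := coord_sum _ _ i
        rw [e2, ← hx i]
        rfl
      rw [e]
      exact Submodule.sum_mem _ fun j _ => Submodule.smul_mem _ _
        (Submodule.subset_span (Set.mem_range_self j))
    rw [← ev_inner, ← ev_norm]
    have h1 : inner ℂ (ev x) (ev y) = inner ℂ (⟨ev x, hxF⟩ : F) (F.orthogonalProjectionOnto (ev y)) := by
      rw [Submodule.inner_orthogonalProjectionOnto_eq_of_mem_left]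
    have h2 : ∑ k, ‖∑ i, (starRingEnd ℂ) (((φ k : F) : V) i) * y i‖ ^ 2 =
        ‖F.orthogonalProjectionOnto (ev y)‖ ^ 2 := by
      rw [← φ.sum_sq_norm_inner_right]
      refine Finset.sum_congr rfl fun k _ => ?_
      rw [← hf, Submodule.inner_orthogonalProjectionOnto_eq_of_mem_left]
    rw [h1, h2, ← mul_pow]
    refine pow_le_pow_left₀ (norm_nonneg _) ?_ 2
    exact norm_inner_le_norm (𝕜 := ℂ) (⟨ev x, hxF⟩ : F) (F.orthogonalProjectionOnto (ev y))

theorem cnt_mono {p q : ℕ} {P Q : (Fin p → Fin q → Bool) → Prop} (h : ∀ σ, P σ → Q σ) :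
    cnt P ≤ cnt Q := by
  classical
  unfold cnt
  refine Finset.card_le_card fun σ hσ => ?_
  have h1 := (@Finset.mem_filter _ _ _ _ _).1 hσ
  exact (@Finset.mem_filter _ _ _ _ _).2 ⟨h1.1, h σ h1.2⟩

theorem f4 (h1 : S_CH4) : S_F4 := by
  classical
  intro p q d N Z S e α b γ hp hZ hN hγ hD
  have hZ0 : (0 : ℝ) < Z := by exact_mod_cast hZ
  let ι := Fin d ⊕ Fin p ⊕ {t // t ∈ S}
  let v : ι → Fin N → ℂ := Sum.elim (fun x i => e i x)
    (Sum.elim (fun y i => α i y) (fun t i => b i t.1))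
  obtain ⟨D, f, hDc, hf1, hf2⟩ := proj v
  have hcard : Fintype.card ι = d + p + S.card := by
    show Fintype.card (Fin d ⊕ Fin p ⊕ {t // t ∈ S}) = _
    rw [Fintype.card_sum, Fintype.card_sum, Fintype.card_fin, Fintype.card_fin,
      Fintype.card_coe, add_assoc]
  rw [hcard] at hDc
  have key := h1 p q N D Z γ f hp hZ hγ hD hf1 ((N : ℝ) / Z)
  -- failure implies that the quadratic form is large
  have hmono : ∀ σ : Fin p → Fin q → Bool,
      ¬ (∀ (M₁ : Matrix (Fin p) (Fin d) ℂ) (M₂ : Matrix (Fin p) (Fin p) ℂ)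
        (M₃ : Matrix (Fin p) (Fin q) ℂ) (h : Fin N → Fin p → ℂ),
        (∀ i, h i = M₁.mulVec (e i) + M₂.mulVec (α i) + M₃.mulVec (res S (b i))) →
        ‖∑ i, ip (h i) (RV σ (γ i))‖ ^ 2 ≤ ((N : ℝ) / Z) * ∑ i, sq (h i)) →
      (N : ℝ) / Z ≤ ∑ a, ∑ k, ‖∑ i, f k i * RV σ (γ i) a‖ ^ 2 := by
    intro σ hσ
    by_contra hcon
    push Not at hcon
    apply hσ
    intro M₁ M₂ M₃ h hh
    -- the rows
    have hrow : ∀ a, ‖∑ i, (starRingEnd ℂ) (h i a) * RV σ (γ i) a‖ ^ 2 ≤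
        (∑ i, ‖h i a‖ ^ 2) * ∑ k, ‖∑ i, f k i * RV σ (γ i) a‖ ^ 2 := by
      intro a
      refine hf2 (Sum.elim (fun x => M₁ a x) (Sum.elim (fun y => M₂ a y) (fun t => M₃ a t.1)))
        (fun i => h i a) (fun i => RV σ (γ i) a) fun i => ?_
      rw [hh i, Fintype.sum_sum_type, Fintype.sum_sum_type]
      simp only [Sum.elim_inl, Sum.elim_inr, v, Pi.add_apply, Matrix.mulVec, dotProduct]
      rw [add_assoc]
      congr 2
      unfold res
      rw [← Finset.sum_subset (Finset.subset_univ S)]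
      · rw [← Finset.sum_coe_sort]
        refine Finset.sum_congr rfl fun t _ => ?_
        rw [if_pos t.2]
      · intro t _ ht
        rw [if_neg ht, mul_zero]
    have hsum : ∑ i, ip (h i) (RV σ (γ i)) =
        ∑ a, ∑ i, (starRingEnd ℂ) (h i a) * RV σ (γ i) a := by
      unfold ip
      exact Finset.sum_comm
    have hsq : ∑ i, sq (h i) = ∑ a, ∑ i, ‖h i a‖ ^ 2 := by
      unfold Pool.Agent.Helper25.HL.sq
      exact Finset.sum_comm
    rw [hsum, hsq]
    set A : Fin p → ℝ := fun a => ∑ i, ‖h i a‖ ^ 2 with hA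
    set T : Fin p → ℝ := fun a => ∑ k, ‖∑ i, f k i * RV σ (γ i) a‖ ^ 2 with hT
    have hA0 : ∀ a, 0 ≤ A a := fun a => Finset.sum_nonneg fun i _ => by positivity
    have hT0 : ∀ a, 0 ≤ T a := fun a => Finset.sum_nonneg fun i _ => by positivity
    have h2 : ‖∑ a, ∑ i, (starRingEnd ℂ) (h i a) * RV σ (γ i) a‖ ≤
        ∑ a, Real.sqrt (A a) * Real.sqrt (T a) := by
      refine (norm_sum_le _ _).trans (Finset.sum_le_sum fun a _ => ?_)
      rw [← Real.sqrt_mul (hA0 a)]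
      exact Real.le_sqrt_of_sq_le (hrow a)
    have h3 : (∑ a, Real.sqrt (A a) * Real.sqrt (T a)) ^ 2 ≤ (∑ a, A a) * ∑ a, T a := by
      have h4 := Finset.sum_mul_sq_le_sq_mul_sq Finset.univ (fun a => Real.sqrt (A a))
        (fun a => Real.sqrt (T a))
      simp only [Real.sq_sqrt (hA0 _), Real.sq_sqrt (hT0 _)] at h4
      exact h4
    have h5 := pow_le_pow_left₀ (norm_nonneg _) h2 2
    refine h5.trans (h3.trans ?_)
    rw [mul_comm]
    exact mul_le_mul_of_nonneg_right hcon.le (Finset.sum_nonneg fun a _ => hA0 a)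
  have hcnt : (cnt (fun σ : Fin p → Fin q → Bool =>
      ¬ (∀ (M₁ : Matrix (Fin p) (Fin d) ℂ) (M₂ : Matrix (Fin p) (Fin p) ℂ)
        (M₃ : Matrix (Fin p) (Fin q) ℂ) (h : Fin N → Fin p → ℂ),
        (∀ i, h i = M₁.mulVec (e i) + M₂.mulVec (α i) + M₃.mulVec (res S (b i))) →
        ‖∑ i, ip (h i) (RV σ (γ i))‖ ^ 2 ≤ ((N : ℝ) / Z) * ∑ i, sq (h i))) : ℝ) ≤
      (cnt (fun σ : Fin p → Fin q → Bool =>
        (N : ℝ) / Z ≤ ∑ a, ∑ k, ‖∑ i, f k i * RV σ (γ i) a‖ ^ 2) : ℝ) := by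
    exact Nat.cast_le.2 (cnt_mono hmono)
  refine hcnt.trans (key.trans ?_)
  rw [mul_assoc]
  refine mul_le_mul_of_nonneg_left ?_ (by positivity)
  have h6 : (4 : ℝ) ≤ Real.exp 6 := by
    have := Real.add_one_le_exp (6 : ℝ)
    linarith
  have h7 : (4 : ℝ) ^ (p * D) ≤ Real.exp (3 * (N * p) / (16 * (Z : ℝ) ^ 3)) := by
    refine (pow_le_pow_left₀ (by norm_num) h6 _).trans ?_
    rw [← Real.exp_nat_mul]
    refine Real.exp_le_exp.2 ?_
    have h8 : (32 * (Z : ℝ) ^ 3) * D ≤ N := by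
      have h9 : 32 * Z ^ 3 * D ≤ N := le_trans (Nat.mul_le_mul_left _ hDc) hN
      exact_mod_cast h9
    rw [le_div_iff₀ (by positivity)]
    push_cast
    have hp0 : (0 : ℝ) ≤ p := Nat.cast_nonneg p
    nlinarith [mul_le_mul_of_nonneg_left h8 hp0]
  refine (mul_le_mul_of_nonneg_right h7 (Real.exp_pos _).le).trans ?_
  rw [← Real.exp_add]
  refine Real.exp_le_exp.2 (le_of_eq ?_)
  field_simp
  ring

end Pool.Agent.Helper6.HL
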