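import Pool.Agent.Helper6.HL.Core

/-!
# Project HL (MP_03bcbb_an): packet LP (the correlation of light vectors with linear images of the labels)
-/

set_option autoImplicit false

noncomputable section

namespace Pool.Agent.Helper6.HL

open Pool.Agent.Helper25.HL

theorem lp (h1 : S_SA2) (h2 : S_RL) : S_LP := by
  classical
  intro p q d N N₁ Z C L σ K h η ϖ k a m S S' hp hZ hC hP4 hd hϖ hK hh hh1 hk ha hm hS hl hη
    hN hNL M₁ M₂ M₃ f hf
  have hZ0 : (0 : ℝ) < Z := by exact_mod_cast hZ
  have hN1 : 1 ≤ N₁ := by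
    refine le_trans ?_ hN
    have h3 : 1 * 1 ≤ C * (d + p + S.card) := Nat.mul_le_mul hC (by omega)
    omega
  have key := h1 (Fin N) (Fin p) q N₁ Z ϖ (fun j => sup S' (m j)) η ((Z : ℝ) ^ 2) K (1 / Z)
    (fun j => RV σ (res S'ᶜ (m j))) f hN1 hϖ hK
    (fun j => gi_card (hm j) _ fun t ht => (mem_sup.1 ht).2)
    (mass hϖ hm hη hl) (by positivity) (by positivity) hη
    (fun j => rv_bound h2 σ hp (gi_res (hm j) _))
    (fun J I hD => by
      have h4 := hP4 d N₁ hd hNL S hN (fun i => k (J i)) (fun i => a (J i)) (fun i => m (J i))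
        (gam S' m J I) (fun i => hk _) (fun i => ha _) (fun i => hm _) (gam_gi hm J I)
        (gam_disj hD) M₁ M₂ M₃ (fun i => f (J i)) (fun i => hf _)
      have h5 : ∑ i, ip (f (J i)) (RV σ (gam S' m J I i)) =
          ∑ i ∈ I, ip (f (J i)) (RV σ (res S'ᶜ (m (J i)))) := by
        rw [← Finset.sum_subset (Finset.subset_univ I)]
        · refine Finset.sum_congr rfl fun i hi => ?_
          unfold gam
          rw [if_pos hi]
        · intro i _ hi
          unfold gam
          rw [if_neg hi, map_zero, ip_zero]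
      rw [h5] at h4
      refine h4.trans (le_of_eq ?_)
      ring)
  have h6 : ∑ j, (ϖ j : ℂ) * ip (f j) (RV σ (res S'ᶜ ((h : ℂ) • m j))) =
      (h : ℂ) * ∑ j, (ϖ j : ℂ) * ip (f j) (RV σ (res S'ᶜ (m j))) := by
    rw [Finset.mul_sum]
    refine Finset.sum_congr rfl fun j _ => ?_
    rw [res_smul, map_smul, ip_smul]
    ring
  rw [h6, norm_mul, Complex.norm_real, Real.norm_of_nonneg hh.le, mul_pow]
  refine le_trans (mul_le_of_le_one_left (by positivity) (pow_le_one₀ hh.le hh1)) ?_
  refine key.trans (le_of_eq ?_)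
  ring

end Pool.Agent.Helper6.HL
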