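import Pool.Agent.Helper25.HL.Goals1

/-!
# Project HL (MP_03bcbb_an): Gaussian integer vectors, tools for the packets EM and LP
-/

set_option autoImplicit false

noncomputable section

namespace Pool.Agent.Helper6.HL

export Pool.Agent.Helper25.HL (sq)

open Pool.Agent.Helper25.HL

theorem gi_zero (Z q : ℕ) : GI Z (0 : Fin q → ℂ) :=
  ⟨fun _ => 0, fun _ => 0, fun t => by simp, by simp⟩

theorem gi_res {Z q : ℕ} {β : Fin q → ℂ} (h : GI Z β) (T : Finset (Fin q)) : GI Z (res T β) := by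
  obtain ⟨a, b, h1, h2⟩ := h
  refine ⟨fun t => if t ∈ T then a t else 0, fun t => if t ∈ T then b t else 0, fun t => ?_, ?_⟩
  · unfold res
    by_cases ht : t ∈ T
    · simp only [if_pos ht, h1 t]
    · simp only [if_neg ht]
      simp
  · refine le_trans (Finset.sum_le_sum fun t _ => ?_) h2
    by_cases ht : t ∈ T
    · simp only [if_pos ht]
      exact le_refl _
    · simp only [if_neg ht, abs_zero, add_zero]
      positivity

theorem norm_le_ab (a b : ℤ) : ‖(a : ℂ) + (b : ℂ) * Complex.I‖ ≤ |(a : ℝ)| + |(b : ℝ)| := by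
  refine le_trans (norm_add_le _ _) ?_
  rw [norm_mul, Complex.norm_I, mul_one, Complex.norm_intCast, Complex.norm_intCast]

theorem gi_l1 {Z q : ℕ} {β : Fin q → ℂ} (h : GI Z β) : l1 β ≤ Z := by
  obtain ⟨a, b, h1, h2⟩ := h
  have h3 : ((∑ t, (|a t| + |b t|) : ℤ) : ℝ) ≤ ((Z : ℤ) : ℝ) := by exact_mod_cast h2
  rw [Int.cast_natCast] at h3
  refine le_trans ?_ h3
  push_cast
  unfold l1
  exact Finset.sum_le_sum fun t _ => by rw [h1 t]; exact norm_le_ab _ _

theorem gi_ab {Z q : ℕ} {β : Fin q → ℂ} {a b : Fin q → ℤ}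
    (h1 : ∀ t, β t = (a t : ℂ) + (b t : ℂ) * Complex.I) {t : Fin q} (ht : β t ≠ 0) :
    a t ≠ 0 ∨ b t ≠ 0 := by
  by_contra hcon
  push Not at hcon
  apply ht
  rw [h1 t, hcon.1, hcon.2]
  simp

theorem gi_card {Z q : ℕ} {β : Fin q → ℂ} (h : GI Z β) (T : Finset (Fin q))
    (hT : ∀ t ∈ T, β t ≠ 0) : T.card ≤ Z := by
  obtain ⟨a, b, h1, h2⟩ := h
  have h3 : (T.card : ℤ) ≤ Z := by
    refine le_trans ?_ h2
    have e : (T.card : ℤ) = ∑ t ∈ T, (1 : ℤ) := by simp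
    rw [e]
    refine le_trans (Finset.sum_le_sum fun t ht => ?_)
      (Finset.sum_le_sum_of_subset_of_nonneg (Finset.subset_univ T)
        fun t _ _ => add_nonneg (abs_nonneg (a t)) (abs_nonneg (b t)))
    rcases gi_ab (Z := Z) h1 (hT t ht) with h | h
    · have := Int.one_le_abs h
      have := abs_nonneg (b t)
      omega
    · have := Int.one_le_abs h
      have := abs_nonneg (a t)
      omega
  exact_mod_cast h3

theorem gi_norm {Z q : ℕ} {β : Fin q → ℂ} (h : GI Z β) {t : Fin q} (ht : β t ≠ 0) :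
    1 ≤ ‖β t‖ := by
  obtain ⟨a, b, h1, h2⟩ := h
  have hab := gi_ab (Z := Z) h1 ht
  have e1 : (β t).re = a t := by rw [h1 t]; simp
  have e2 : (β t).im = b t := by rw [h1 t]; simp
  rcases hab with h | h
  · refine le_trans ?_ (Complex.abs_re_le_norm (β t))
    rw [e1]
    exact_mod_cast Int.one_le_abs h
  · refine le_trans ?_ (Complex.abs_im_le_norm (β t))
    rw [e2]
    exact_mod_cast Int.one_le_abs h

theorem l1_nonneg {q : ℕ} (β : Fin q → ℂ) : 0 ≤ l1 β :=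
  Finset.sum_nonneg fun _ _ => norm_nonneg _

theorem l1_res_le {q : ℕ} (β : Fin q → ℂ) (T : Finset (Fin q)) : l1 (res T β) ≤ l1 β := by
  unfold l1 res
  refine Finset.sum_le_sum fun t _ => ?_
  by_cases ht : t ∈ T
  · rw [if_pos ht]
  · rw [if_neg ht, norm_zero]
    exact norm_nonneg _

theorem res_smul {q : ℕ} (β : Fin q → ℂ) (T : Finset (Fin q)) (c : ℂ) :
    res T (c • β) = c • res T β := by
  funext t
  unfold res
  rw [Pi.smul_apply, Pi.smul_apply]
  by_cases ht : t ∈ T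
  · rw [if_pos ht, if_pos ht]
  · rw [if_neg ht, if_neg ht, smul_zero]

theorem ip_smul {ι : Type} [Fintype ι] (x y : ι → ℂ) (c : ℂ) : ip x (c • y) = c * ip x y := by
  unfold ip
  rw [Finset.mul_sum]
  refine Finset.sum_congr rfl fun t _ => ?_
  rw [Pi.smul_apply, smul_eq_mul]
  ring

theorem ip_zero {ι : Type} [Fintype ι] (x : ι → ℂ) : ip x (0 : ι → ℂ) = 0 := by
  unfold ip
  simp

theorem sq_nonneg' {ι : Type} [Fintype ι] (x : ι → ℂ) : 0 ≤ sq x :=
  Finset.sum_nonneg fun _ _ => by positivity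

/-- the support outside `S'` -/
def sup {q : ℕ} (S' : Finset (Fin q)) (m : Fin q → ℂ) : Finset (Fin q) :=
  Finset.univ.filter fun t => t ∉ S' ∧ m t ≠ 0

theorem mem_sup {q : ℕ} {S' : Finset (Fin q)} {m : Fin q → ℂ} {t : Fin q} :
    t ∈ sup S' m ↔ t ∉ S' ∧ m t ≠ 0 := by
  unfold sup
  rw [Finset.mem_filter]
  exact ⟨fun h => h.2, fun h => ⟨Finset.mem_univ _, h⟩⟩

/-- the mass condition -/
theorem mass {q N Z : ℕ} {ϖ : Fin N → ℝ} {m : Fin N → Fin q → ℂ} {S' : Finset (Fin q)} {η : ℝ}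
    (hϖ : ∀ j, 0 ≤ ϖ j) (hm : ∀ j, GI Z (m j)) (hη : 0 ≤ η)
    (hl : ∀ t, t ∉ S' → ∑ j, ϖ j * ‖m j t‖ ≤ η) (t : Fin q) :
    ∑ j, (if t ∈ sup S' (m j) then ϖ j else 0) ≤ η := by
  by_cases ht : t ∈ S'
  · rw [Finset.sum_eq_zero]
    · exact hη
    · intro j _
      rw [if_neg]
      intro h
      exact (mem_sup.1 h).1 ht
  · refine le_trans (Finset.sum_le_sum fun j _ => ?_) (hl t ht)
    by_cases hj : t ∈ sup S' (m j)
    · rw [if_pos hj]
      have h1 := gi_norm (hm j) (mem_sup.1 hj).2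
      exact le_mul_of_one_le_right (hϖ j) h1
    · rw [if_neg hj]
      exact mul_nonneg (hϖ j) (norm_nonneg _)

/-- the vectors for the properties P3 and P4 -/
def gam {q N N₁ : ℕ} (S' : Finset (Fin q)) (m : Fin N → Fin q → ℂ) (J : Fin N₁ → Fin N)
    (I : Finset (Fin N₁)) (i : Fin N₁) : Fin q → ℂ :=
  if i ∈ I then res S'ᶜ (m (J i)) else 0

theorem gam_gi {q N N₁ Z : ℕ} {S' : Finset (Fin q)} {m : Fin N → Fin q → ℂ}
    (hm : ∀ j, GI Z (m j)) (J : Fin N₁ → Fin N) (I : Finset (Fin N₁)) (i : Fin N₁) :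
    GI Z (gam S' m J I i) := by
  unfold gam
  by_cases hi : i ∈ I
  · rw [if_pos hi]
    exact gi_res (hm _) _
  · rw [if_neg hi]
    exact gi_zero _ _

theorem gam_van {q N N₁ : ℕ} {S S' : Finset (Fin q)} (hS : S ⊆ S') (m : Fin N → Fin q → ℂ)
    (J : Fin N₁ → Fin N) (I : Finset (Fin N₁)) (i : Fin N₁) (t : Fin q) (ht : t ∈ S) :
    gam S' m J I i t = 0 := by
  unfold gam
  by_cases hi : i ∈ I
  · rw [if_pos hi]
    unfold res
    rw [if_neg]
    rw [Finset.mem_compl]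
    exact fun h => h (hS ht)
  · rw [if_neg hi]
    rfl

theorem gam_ne {q N N₁ : ℕ} {S' : Finset (Fin q)} {m : Fin N → Fin q → ℂ}
    {J : Fin N₁ → Fin N} {I : Finset (Fin N₁)} {i : Fin N₁} {t : Fin q}
    (h : gam S' m J I i t ≠ 0) : i ∈ I ∧ t ∈ sup S' (m (J i)) := by
  unfold gam at h
  by_cases hi : i ∈ I
  · rw [if_pos hi] at h
    unfold res at h
    by_cases ht : t ∈ S'ᶜ
    · rw [if_pos ht] at h
      exact ⟨hi, mem_sup.2 ⟨Finset.mem_compl.1 ht, h⟩⟩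
    · rw [if_neg ht] at h
      exact absurd rfl h
  · rw [if_neg hi] at h
    exact absurd rfl h

theorem gam_disj {q N N₁ : ℕ} {S' : Finset (Fin q)} {m : Fin N → Fin q → ℂ}
    {J : Fin N₁ → Fin N} {I : Finset (Fin N₁)} (h : DisjOn (fun j => sup S' (m j)) J I) :
    Disj (gam S' m J I) := by
  intro i j hij t
  by_contra hcon
  push Not at hcon
  obtain ⟨hi, hti⟩ := gam_ne hcon.1
  obtain ⟨hj, htj⟩ := gam_ne hcon.2
  exact Finset.disjoint_left.1 (h i hi j hj hij) hti htj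

theorem rv_bound (h3 : S_RL) {p q Z : ℕ} (σ : Fin p → Fin q → Bool) (hp : 1 ≤ p)
    {β : Fin q → ℂ} (hβ : GI Z β) : sq (RV σ β) ≤ (Z : ℝ) ^ 2 :=
  (h3 p q σ hp β).trans (pow_le_pow_left₀ (l1_nonneg β) (gi_l1 hβ) 2)

end Pool.Agent.Helper6.HL
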